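import Pool.Agent.T6.H96.SD.Fin

/-!
# Additive and multiplicative Sidon subsets: the exponent is at most `3/5`

The set consists of the numbers `u w T ^ j` with `u ≤ Y`, `w` in a set `W` of `m Y ^ 2` primes between
`Y` and `Y ^ 3`, `j < m` and `T > Y ^ 4`, where `Y` is `m log m` up to a constant.

* For every `j` the elements of an additive Sidon subset have at most `2 Y ^ 2` values of `u w`,
  which are a Sidon set in the interval `[1, Y ^ 4]`; so it has at most `2 m Y ^ 2` elements.
* The ratio of two elements with the same `w` is `(u / u') T ^ (j - j')`, one of `2 m Y ^ 2` numbers, and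
  no number except `1` is the ratio of two different pairs of elements of a multiplicative Sidon
  set. By the inequality of Cauchy and Schwarz it has at most `2 m Y ^ 2` elements, too.

The whole set has `m ^ 2 Y ^ 3` elements.
-/

set_option autoImplicit false

namespace Pool.Agent.Results.MP_c028f8_co.ExponentThreeFifths

open Filter

/-- `B` is an additive Sidon set: `a + b = c + d` only if `{a, b} = {c, d}`. -/
def AddSidon (B : Finset ℤ) : Prop :=
  ∀ a ∈ B, ∀ b ∈ B, ∀ c ∈ B, ∀ d ∈ B, a + b = c + d → (a = c ∧ b = d) ∨ (a = d ∧ b = c)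

/-- `B` is a multiplicative Sidon set: `a b = c d` only if `{a, b} = {c, d}`. -/
def MulSidon (B : Finset ℤ) : Prop :=
  ∀ a ∈ B, ∀ b ∈ B, ∀ c ∈ B, ∀ d ∈ B, a * b = c * d → (a = c ∧ b = d) ∨ (a = d ∧ b = c)

/-- (1) There is a constant `C` such that for every `n` there is a set `A` of `n` positive integers
with `|B| ^ 5 ≤ C n ^ 3 (log_2 n + 1)` for every additive Sidon subset and for every multiplicative
Sidon subset `B` of `A`, so that `|B|` is at most `C' n ^ (3/5) (log n) ^ (1/5)`.
(2) For every `δ > 1/10`, every `c > 0` and all large `n` there is a set `A` of `n` positive integers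
such that every additive Sidon subset and every multiplicative Sidon subset of `A` has fewer than
`c n ^ (1/2 + δ)` elements. -/
theorem result :
    (∃ C : ℕ, ∀ n : ℕ, ∃ A : Finset ℤ, A.card = n ∧ (∀ a ∈ A, 0 < a) ∧
      ∀ B ⊆ A, AddSidon B ∨ MulSidon B → B.card ^ 5 ≤ C * (n ^ 3 * (Nat.log 2 n + 1))) ∧
    (∀ δ : ℝ, 1 / 10 < δ → ∀ c : ℝ, 0 < c → ∀ᶠ n : ℕ in atTop, ∃ A : Finset ℤ, A.card = n ∧
      (∀ a ∈ A, 0 < a) ∧
      ∀ B ⊆ A, AddSidon B ∨ MulSidon B → (B.card : ℝ) < c * (n : ℝ) ^ (1 / 2 + δ)) :=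
  ⟨Pool.Agent.T6.H96.SD.main, fun δ hδ c hc => Pool.Agent.T6.H96.SD.main_real δ hδ c hc⟩

end Pool.Agent.Results.MP_c028f8_co.ExponentThreeFifths
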